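import Pool.Agent.Q270.EN.Stm2

/-!
# Project EN (helper270), job AS: almost sure version by Borel-Cantelli along geometric sequences
-/

set_option autoImplicit false

namespace Pool.Agent.Q182.EN

open Finset Filter Topology MeasureTheory Pool.Agent.Q270.EN

/-- nonnegative functions with a summable sequence of integrals -/
theorem ae_summable {Ω : Type} [MeasurableSpace Ω] (μ : Measure Ω) (f : ℕ → Ω → ℝ)
    (hf : ∀ i, Measurable (f i)) (h0 : ∀ i ω, 0 ≤ f i ω) (hi : ∀ i, Integrable (f i) μ)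
    (hs : Summable fun i => ∫ ω, f i ω ∂μ) : ∀ᵐ ω ∂μ, Summable fun i => f i ω := by
  have h1 : ∫⁻ ω, ∑' i, ENNReal.ofReal (f i ω) ∂μ ≠ ⊤ := by
    rw [lintegral_tsum (fun i => ((hf i).ennreal_ofReal).aemeasurable)]
    have h2 : ∀ i, ∫⁻ ω, ENNReal.ofReal (f i ω) ∂μ = ENNReal.ofReal (∫ ω, f i ω ∂μ) := fun i =>
      (ofReal_integral_eq_lintegral_ofReal (hi i) (Eventually.of_forall (h0 i))).symm
    simp only [h2]
    rw [← ENNReal.ofReal_tsum_of_nonneg (fun i => integral_nonneg (h0 i)) hs]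
    exact ENNReal.ofReal_ne_top
  have h3 := ae_lt_top (Measurable.tsum (fun i => (hf i).ennreal_ofReal)) h1
  filter_upwards [h3] with ω hω
  have h4 := ENNReal.summable_toReal hω.ne
  refine h4.congr (fun i => ?_)
  rw [ENNReal.toReal_ofReal (h0 i ω)]

theorem cmf_abs (P : Set ℕ) (s : ℕ → ℝ) (hs : ∀ p, s p = 1 ∨ s p = -1) (n : ℕ) : |cmf P s n| = 1 := by
  classical
  unfold cmf
  rw [Finset.abs_prod]
  refine Finset.prod_eq_one (fun p _ => ?_)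
  rw [abs_pow]
  split_ifs
  · rcases hs p with h | h <;> rw [h] <;> simp
  · simp

theorem term_norm {Ω : Type} [MeasurableSpace Ω] (e : ℕ → Ω → ℝ) (he : Sgn e) (P : Set ℕ)
    (T : Finset ℕ) (w : ℕ → ℂ) (hw : ∀ n, ‖w n‖ ≤ 1) (ω : Ω) (n : ℕ) :
    ‖w n * ((∏ h ∈ T, cmf P (fun p => e p ω) (n + h) : ℝ) : ℂ)‖ ≤ 1 := by
  rw [norm_mul, Complex.norm_real, Real.norm_eq_abs, Finset.abs_prod]
  rw [Finset.prod_eq_one (fun h _ => cmf_abs P (fun p => e p ω) (fun p => he.val p ω) (n + h))]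
  rw [mul_one]
  exact hw n

/-- tails of a summable nonnegative series over finite sets far away -/
theorem tails (F : ℕ → ℝ) (hF : Summable F) (δ : ℝ) (hδ : 0 < δ) :
    ∃ y0 : ℕ, ∀ S : Finset ℕ, (∀ p ∈ S, y0 < p) → ∑ p ∈ S, F p < δ := by
  rw [summable_iff_vanishing_norm] at hF
  obtain ⟨s, hs⟩ := hF δ hδ
  refine ⟨s.sup id, fun S hS => ?_⟩
  have h1 : Disjoint S s := by
    rw [Finset.disjoint_left]
    intro p hp hps
    have h2 : p ≤ s.sup id := Finset.le_sup (f := id) hps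
    exact absurd (hS p hp) (by omega)
  exact lt_of_le_of_lt (Real.le_norm_self _) (hs S h1)

/-- window sums of `(1 / p) |m p|` tend to zero -/
theorem window (P : Set ℕ) (m : ℕ → ℝ) (y : ℕ → ℕ) (hy : Tendsto y atTop atTop) (K : ℝ) (hK : 0 < K)
    (hKb : ∀ᶠ N : ℕ in atTop, ∑ p ∈ (pr P (2 * N)).filter (y N < ·), 1 / (p : ℝ) ≤ K)
    (F : ℕ → ℝ) (hF : Summable F) (hFm : ∀ p, p.Prime → p ∈ P → F p = m p ^ 2 / p)
    (δ : ℝ) (hδ : 0 < δ) :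
    ∀ᶠ N : ℕ in atTop, ∑ p ∈ (pr P (2 * N)).filter (y N < ·), 1 / (p : ℝ) * |m p| ≤ δ := by
  obtain ⟨y0, hy0⟩ := tails F hF (δ ^ 2 / K) (by positivity)
  filter_upwards [hKb, hy.eventually_ge_atTop y0] with N hN hyN
  set S := (pr P (2 * N)).filter (y N < ·) with hS
  have hV : ∑ p ∈ S, F p < δ ^ 2 / K := by
    refine hy0 S (fun p hp => ?_)
    rw [hS, Finset.mem_filter] at hp
    omega
  have hpt : ∀ p ∈ S, 1 / (p : ℝ) * |m p| ≤ δ / K / 2 * (1 / (p : ℝ)) + K / δ / 2 * F p := by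
    intro p hp
    have hp' : p.Prime ∧ p ∈ P := by
      rw [hS, Finset.mem_filter] at hp
      have := hp.1
      unfold pr at this
      simp only [Finset.mem_filter] at this
      exact this.2
    rw [hFm p hp'.1 hp'.2]
    have hp0 : (0 : ℝ) < p := by exact_mod_cast hp'.1.pos
    have h1 : |m p| ≤ δ / K / 2 + K / δ / 2 * m p ^ 2 := by
      have h2 : 0 ≤ (K / δ * |m p| - 1) ^ 2 := sq_nonneg _
      have h3 : δ / K / 2 + K / δ / 2 * m p ^ 2 - |m p| = δ / K / 2 * (K / δ * |m p| - 1) ^ 2 := by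
        rw [← sq_abs (m p)]
        field_simp
        ring
      have h4 : 0 ≤ δ / K / 2 * (K / δ * |m p| - 1) ^ 2 := by positivity
      linarith
    have h5 : 1 / (p : ℝ) * |m p| ≤ 1 / (p : ℝ) * (δ / K / 2 + K / δ / 2 * m p ^ 2) :=
      mul_le_mul_of_nonneg_left h1 (by positivity)
    refine h5.trans (le_of_eq ?_)
    ring
  refine (Finset.sum_le_sum hpt).trans ?_
  rw [Finset.sum_add_distrib, ← Finset.mul_sum, ← Finset.mul_sum]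
  have h6 : δ / K / 2 * ∑ p ∈ S, 1 / (p : ℝ) ≤ δ / K / 2 * K :=
    mul_le_mul_of_nonneg_left hN (by positivity)
  have h7 : K / δ / 2 * ∑ p ∈ S, F p ≤ K / δ / 2 * (δ ^ 2 / K) :=
    mul_le_mul_of_nonneg_left hV.le (by positivity)
  have h8 : δ / K / 2 * K = δ / 2 := by field_simp
  have h9 : K / δ / 2 * (δ ^ 2 / K) = δ / 2 := by field_simp
  linarith

theorem floor_atTop (θ : ℝ) (hθ : 1 < θ) : Tendsto (fun i : ℕ => ⌊θ ^ i⌋₊) atTop atTop :=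
  tendsto_nat_floor_atTop.comp (tendsto_pow_atTop_atTop_of_one_lt hθ)

theorem floor_pos (θ : ℝ) (hθ : 1 < θ) (i : ℕ) : 1 ≤ ⌊θ ^ i⌋₊ := by
  rw [Nat.one_le_floor_iff]
  exact one_le_pow₀ hθ.le

theorem log_floor (θ : ℝ) (hθ : 1 < θ) :
    ∀ᶠ i : ℕ in atTop, (i : ℝ) * (Real.log θ / 2) ≤ Real.log (⌊θ ^ i⌋₊ : ℝ) := by
  have hl : 0 < Real.log θ := Real.log_pos hθ
  have h1 : ∀ᶠ i : ℕ in atTop, 2 * Real.log 2 / Real.log θ ≤ (i : ℝ) :=
    tendsto_natCast_atTop_atTop.eventually_ge_atTop _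
  filter_upwards [h1] with i hi
  have hN : (1 : ℝ) ≤ (⌊θ ^ i⌋₊ : ℝ) := by exact_mod_cast floor_pos θ hθ i
  have h2 : θ ^ i < (⌊θ ^ i⌋₊ : ℝ) + 1 := Nat.lt_floor_add_one _
  have h3 : θ ^ i / 2 ≤ (⌊θ ^ i⌋₊ : ℝ) := by linarith
  have h4 : 0 < θ ^ i / 2 := by positivity
  have h5 := Real.log_le_log h4 h3
  rw [Real.log_div (by positivity) (by norm_num), Real.log_pow] at h5
  rw [div_le_iff₀ hl] at hi
  linarith

/-- the sum along a geometric sequence -/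
theorem geom {Ω : Type} [MeasurableSpace Ω] (μ : Measure Ω) [IsProbabilityMeasure μ]
    (e : ℕ → Ω → ℝ) (P : Set ℕ) (m : ℕ → Ω → ℝ)
    (hcore : ∀ (X N y : ℕ) (T : Finset ℕ) (w : ℕ → ℂ), 1 ≤ y → 2 * N ≤ X → T.Nonempty →
      T ⊆ range (N + 1) → (∀ n, ‖w n‖ ≤ 1) → ∃ Z : Ω → ℝ, Measurable Z ∧ (∀ ω, 0 ≤ Z ω) ∧
        (∀ ω, Z ω ≤ 4 * N * X) ∧
        ∫ ω, Z ω ^ 2 ∂μ ≤ 9 * T.card ^ 2 * N ^ 2 / y ∧
        ∀ ω, ‖∑ n ∈ Icc 1 N, w n * ((∏ h ∈ T, cmf P (fun p => e p ω) (n + h) : ℝ) : ℂ)‖ ≤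
          (((Icc 1 N).filter fun n : ℕ => ∀ p ∈ pr P X, y < p →
            Even ((∏ h ∈ T, (n + h)).factorization p)).card : ℕ) + Z ω +
          3 * T.card * N * ∑ p ∈ (pr P X).filter (y < ·), 1 / (p : ℝ) * |m p ω|)
    (hW : S_WIN)
    (hP : Tendsto (fun N : ℕ => ∑ p ∈ (pr P N).filter (⌈(Real.log N) ^ 2⌉₊ < ·), 1 / (p : ℝ))
      atTop atTop)
    (F : ℕ → Ω → ℝ) (hF : ∀ᵐ ω ∂μ, Summable fun p => F p ω)
    (hFm : ∀ p, p.Prime → p ∈ P → ∀ ω, F p ω = m p ω ^ 2 / p)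
    (T : Finset ℕ) (w : ℕ → ℂ) (hT : T.Nonempty) (hw : ∀ n, ‖w n‖ ≤ 1)
    (θ ε : ℝ) (hθ : 1 < θ) (hε : 0 < ε) :
    ∀ᵐ ω ∂μ, ∀ᶠ i : ℕ in atTop,
      ‖∑ n ∈ Icc 1 ⌊θ ^ i⌋₊, w n * ((∏ h ∈ T, cmf P (fun p => e p ω) (n + h) : ℝ) : ℂ)‖ ≤
        (2 + 3 * T.card) * ε * (⌊θ ^ i⌋₊ : ℝ) := by
  obtain ⟨K, y, hK, hy, hy1, hKb, hcnt⟩ :=
    hW P (fun N => ⌈(Real.log N) ^ 2⌉₊) hP T.card ε hε
  -- the exceptional variables
  have hZ : ∀ N : ℕ, ∃ Z : Ω → ℝ, Measurable Z ∧ (∀ ω, 0 ≤ Z ω) ∧ (∀ ω, Z ω ≤ 4 * N * (2 * N : ℕ)) ∧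
      (1 ≤ y N → T ⊆ range (N + 1) → ∫ ω, Z ω ^ 2 ∂μ ≤ 9 * T.card ^ 2 * N ^ 2 / y N ∧
        ∀ ω, ‖∑ n ∈ Icc 1 N, w n * ((∏ h ∈ T, cmf P (fun p => e p ω) (n + h) : ℝ) : ℂ)‖ ≤
          (((Icc 1 N).filter fun n : ℕ => ∀ p ∈ pr P (2 * N), y N < p →
            Even ((∏ h ∈ T, (n + h)).factorization p)).card : ℕ) + Z ω +
          3 * T.card * N * ∑ p ∈ (pr P (2 * N)).filter (y N < ·), 1 / (p : ℝ) * |m p ω|) := by
    intro N
    by_cases h : 1 ≤ y N ∧ T ⊆ range (N + 1)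
    · obtain ⟨Z, h1, h2, h3, h4, h5⟩ := hcore (2 * N) N (y N) T w h.1 le_rfl hT h.2 hw
      exact ⟨Z, h1, h2, h3, fun _ _ => ⟨h4, h5⟩⟩
    · refine ⟨fun _ => 0, measurable_const, fun _ => le_rfl, fun _ => by positivity, fun h1 h2 => ?_⟩
      exact absurd ⟨h1, h2⟩ h
  choose Z hZm hZ0 hZb hZc using hZ
  have hfl := floor_atTop θ hθ
  have hTN : ∀ᶠ N : ℕ in atTop, T ⊆ range (N + 1) := by
    filter_upwards [eventually_ge_atTop (T.sup id)] with N hN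
    intro h hh
    have : h ≤ T.sup id := Finset.le_sup (f := id) hh
    rw [Finset.mem_range]
    omega
  -- summability of second moments
  set f : ℕ → Ω → ℝ := fun i ω => (Z ⌊θ ^ i⌋₊ ω / (⌊θ ^ i⌋₊ : ℝ)) ^ 2 with hf
  have hfm : ∀ i, Measurable (f i) := fun i => ((hZm _).div_const _).pow_const 2
  have hf0 : ∀ i ω, 0 ≤ f i ω := fun i ω => sq_nonneg _
  have hfi : ∀ i, Integrable (f i) μ := by
    intro i
    have hN : (0 : ℝ) < (⌊θ ^ i⌋₊ : ℝ) := by exact_mod_cast floor_pos θ hθ i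
    refine Integrable.of_bound (hfm i).aestronglyMeasurable
      ((4 * (⌊θ ^ i⌋₊ : ℝ) * (2 * ⌊θ ^ i⌋₊ : ℕ) / (⌊θ ^ i⌋₊ : ℝ)) ^ 2) (Eventually.of_forall fun ω => ?_)
    rw [Real.norm_of_nonneg (hf0 i ω)]
    have h1 : 0 ≤ Z ⌊θ ^ i⌋₊ ω / (⌊θ ^ i⌋₊ : ℝ) := div_nonneg (hZ0 _ ω) hN.le
    exact pow_le_pow_left₀ h1 (div_le_div_of_nonneg_right (hZb _ ω) hN.le) 2
  have hfs : Summable fun i => ∫ ω, f i ω ∂μ := by
    have hl : 0 < Real.log θ := Real.log_pos hθ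
    have hg : Summable fun i : ℕ => 9 * (T.card : ℝ) ^ 2 / (Real.log θ / 2) ^ 2 * (1 / (i : ℝ) ^ 2) :=
      (Real.summable_one_div_nat_pow.mpr (by norm_num)).mul_left _
    refine Summable.of_norm_bounded_eventually_nat hg ?_
    filter_upwards [hfl.eventually hy1, hfl.eventually hTN, log_floor θ hθ, eventually_ge_atTop 1]
      with i h1 h2 h3 h4
    have hN : (0 : ℝ) < (⌊θ ^ i⌋₊ : ℝ) := by exact_mod_cast floor_pos θ hθ i
    rw [Real.norm_of_nonneg (integral_nonneg (hf0 i))]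
    have h5 := (hZc _ h1.2.1 h2).1
    have h6 : ∫ ω, f i ω ∂μ = (∫ ω, Z ⌊θ ^ i⌋₊ ω ^ 2 ∂μ) / (⌊θ ^ i⌋₊ : ℝ) ^ 2 := by
      rw [← integral_div]
      refine integral_congr_ae (Eventually.of_forall fun ω => ?_)
      simp only [hf, div_pow]
    rw [h6]
    have hi : (0 : ℝ) < (i : ℝ) := by exact_mod_cast h4
    have h7 : ((i : ℝ) * (Real.log θ / 2)) ^ 2 ≤ (y ⌊θ ^ i⌋₊ : ℝ) := by
      have h8 : ((i : ℝ) * (Real.log θ / 2)) ^ 2 ≤ (Real.log (⌊θ ^ i⌋₊ : ℝ)) ^ 2 :=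
        pow_le_pow_left₀ (by positivity) h3 2
      have h9 : (Real.log (⌊θ ^ i⌋₊ : ℝ)) ^ 2 ≤ (⌈(Real.log (⌊θ ^ i⌋₊ : ℝ)) ^ 2⌉₊ : ℝ) := Nat.le_ceil _
      have h10 : (⌈(Real.log (⌊θ ^ i⌋₊ : ℝ)) ^ 2⌉₊ : ℝ) ≤ (y ⌊θ ^ i⌋₊ : ℝ) := by exact_mod_cast h1.1
      linarith
    have h8 : (0 : ℝ) < ((i : ℝ) * (Real.log θ / 2)) ^ 2 := by positivity
    rw [div_le_iff₀ (by positivity)]
    refine h5.trans ?_
    have h9 : 9 * (T.card : ℝ) ^ 2 * (⌊θ ^ i⌋₊ : ℝ) ^ 2 / (y ⌊θ ^ i⌋₊ : ℝ) ≤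
        9 * (T.card : ℝ) ^ 2 * (⌊θ ^ i⌋₊ : ℝ) ^ 2 / ((i : ℝ) * (Real.log θ / 2)) ^ 2 :=
      div_le_div_of_nonneg_left (by positivity) h8 h7
    refine h9.trans (le_of_eq ?_)
    field_simp
  have hae := ae_summable μ f hfm hf0 hfi hfs
  filter_upwards [hae, hF] with ω h1 h2
  have hz : ∀ᶠ i : ℕ in atTop, Z ⌊θ ^ i⌋₊ ω ≤ ε * (⌊θ ^ i⌋₊ : ℝ) := by
    have h3 := h1.tendsto_atTop_zero
    have h4 : ∀ᶠ i : ℕ in atTop, f i ω < ε ^ 2 := h3.eventually_lt_const (by positivity)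
    filter_upwards [h4] with i hi
    have hN : (0 : ℝ) < (⌊θ ^ i⌋₊ : ℝ) := by exact_mod_cast floor_pos θ hθ i
    have h5 : Z ⌊θ ^ i⌋₊ ω / (⌊θ ^ i⌋₊ : ℝ) < ε := lt_of_pow_lt_pow_left₀ 2 hε.le hi
    exact ((div_lt_iff₀ hN).mp h5).le
  have hwd := window P (fun p => m p ω) y hy K hK hKb (fun p => F p ω) h2
    (fun p hp hpP => hFm p hp hpP ω) ε hε
  filter_upwards [hz, hfl.eventually hwd, hfl.eventually hcnt, hfl.eventually hy1, hfl.eventually hTN]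
    with i g1 g2 g3 g4 g5
  have g6 := (hZc _ g4.2.1 g5).2 ω
  have g7 := g3 T hT le_rfl g5 (Or.inr (Nat.le_ceil _))
  have hN : (0 : ℝ) ≤ (⌊θ ^ i⌋₊ : ℝ) := Nat.cast_nonneg _
  have g8 : 3 * (T.card : ℝ) * (⌊θ ^ i⌋₊ : ℝ) *
      ∑ p ∈ (pr P (2 * ⌊θ ^ i⌋₊)).filter (y ⌊θ ^ i⌋₊ < ·), 1 / (p : ℝ) * |m p ω| ≤
      3 * (T.card : ℝ) * (⌊θ ^ i⌋₊ : ℝ) * ε := mul_le_mul_of_nonneg_left g2 (by positivity)
  have g9 : (2 + 3 * (T.card : ℝ)) * ε * (⌊θ ^ i⌋₊ : ℝ) =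
      ε * (⌊θ ^ i⌋₊ : ℝ) + ε * (⌊θ ^ i⌋₊ : ℝ) + 3 * (T.card : ℝ) * (⌊θ ^ i⌋₊ : ℝ) * ε := by ring
  linarith

/-- from geometric sequences to all `N` -/
theorem interp (a : ℕ → ℂ) (ha : ∀ n, ‖a n‖ ≤ 1)
    (B : ℝ)
    (h : ∀ r s : ℕ, ∀ᶠ i : ℕ in atTop, ‖∑ n ∈ Icc 1 ⌊(1 + 1 / ((s : ℝ) + 1)) ^ i⌋₊, a n‖ ≤
      B * (1 / ((r : ℝ) + 1)) * (⌊(1 + 1 / ((s : ℝ) + 1)) ^ i⌋₊ : ℝ)) :
    Tendsto (fun N : ℕ => (∑ n ∈ Icc 1 N, a n) / (N : ℂ)) atTop (𝓝 0) := by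
  have hone : ∀ s : ℕ, 1 < 1 + 1 / ((s : ℝ) + 1) := fun s => by
    have : 0 < 1 / ((s : ℝ) + 1) := by positivity
    linarith
  have hlim : Tendsto (fun s : ℕ => 1 + 1 / ((s : ℝ) + 1)) atTop (𝓝 1) := by
    simpa using (tendsto_one_div_add_atTop_nhds_zero_nat (𝕜 := ℝ)).const_add 1
  -- real valued version
  have key : ∀ g : ℕ → ℝ, (∀ n, |g n| ≤ ‖a n‖) → (∀ N : ℕ, |∑ n ∈ Icc 1 N, g n| ≤ ‖∑ n ∈ Icc 1 N, a n‖) →
      Tendsto (fun N : ℕ => (∑ n ∈ Icc 1 N, g n) / (N : ℝ)) atTop (𝓝 0) := by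
    intro g hg hG
    have hmono : Monotone fun N : ℕ => (∑ n ∈ Icc 1 N, g n) + (N : ℝ) := by
      refine monotone_nat_of_le_succ fun N => ?_
      rw [Finset.sum_Icc_succ_top (by omega : 1 ≤ N + 1)]
      have h1 : |g (N + 1)| ≤ 1 := (hg _).trans (ha _)
      have h2 := (abs_le.mp h1).1
      push_cast
      linarith
    have h3 := tendsto_div_of_monotone_of_tendsto_div_floor_pow
      (fun N : ℕ => (∑ n ∈ Icc 1 N, g n) + (N : ℝ)) 1 hmono (fun s => 1 + 1 / ((s : ℝ) + 1)) hone hlim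
      (fun s => by
        rw [Metric.tendsto_atTop']
        intro δ hδ
        obtain ⟨r, hr⟩ := exists_nat_gt (|B| / δ)
        have h4 := h r s
        rw [eventually_atTop] at h4
        obtain ⟨i0, hi0⟩ := h4
        refine ⟨i0, fun i hi => ?_⟩
        have h5 := hi0 i hi.le
        have hN : (0 : ℝ) < (⌊(1 + 1 / ((s : ℝ) + 1)) ^ i⌋₊ : ℝ) := by
          exact_mod_cast floor_pos _ (hone s) i
        rw [Real.dist_eq]
        have h6 : ((∑ n ∈ Icc 1 ⌊(1 + 1 / ((s : ℝ) + 1)) ^ i⌋₊, g n) +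
            (⌊(1 + 1 / ((s : ℝ) + 1)) ^ i⌋₊ : ℝ)) / (⌊(1 + 1 / ((s : ℝ) + 1)) ^ i⌋₊ : ℝ) - 1 =
            (∑ n ∈ Icc 1 ⌊(1 + 1 / ((s : ℝ) + 1)) ^ i⌋₊, g n) /
              (⌊(1 + 1 / ((s : ℝ) + 1)) ^ i⌋₊ : ℝ) := by
          rw [add_div, div_self hN.ne', add_sub_cancel_right]
        rw [h6, abs_div, abs_of_pos hN, div_lt_iff₀ hN]
        refine lt_of_le_of_lt ((hG _).trans h5) ?_
        have hr1 : (0 : ℝ) < (r : ℝ) + 1 := by positivity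
        have h7 : B * (1 / ((r : ℝ) + 1)) < δ := by
          rw [mul_one_div, div_lt_iff₀ hr1]
          rw [div_lt_iff₀ hδ] at hr
          have := le_abs_self B
          nlinarith
        exact mul_lt_mul_of_pos_right h7 hN)
    have h8 : Tendsto (fun N : ℕ => ((∑ n ∈ Icc 1 N, g n) + (N : ℝ)) / (N : ℝ) - 1) atTop (𝓝 0) := by
      simpa using h3.sub_const 1
    refine h8.congr' ?_
    filter_upwards [eventually_ge_atTop 1] with N hN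
    have hN' : (0 : ℝ) < (N : ℝ) := by exact_mod_cast hN
    field_simp
    ring
  have hre := key (fun n => (a n).re) (fun n => Complex.abs_re_le_norm _) (fun N => by
    rw [← Complex.re_sum]; exact Complex.abs_re_le_norm _)
  have him := key (fun n => (a n).im) (fun n => Complex.abs_im_le_norm _) (fun N => by
    rw [← Complex.im_sum]; exact Complex.abs_im_le_norm _)
  have hsum : Tendsto (fun N : ℕ => |(∑ n ∈ Icc 1 N, (a n).re) / (N : ℝ)| +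
      |(∑ n ∈ Icc 1 N, (a n).im) / (N : ℝ)|) atTop (𝓝 0) := by
    simpa using hre.abs.add him.abs
  refine squeeze_zero_norm (fun N => ?_) hsum
  refine (Complex.norm_le_abs_re_add_abs_im _).trans (le_of_eq ?_)
  have e1 : (((∑ n ∈ Icc 1 N, a n) / (N : ℂ)) : ℂ) = (∑ n ∈ Icc 1 N, a n) / ((N : ℝ) : ℂ) := by
    push_cast; rfl
  rw [e1, Complex.div_ofReal_re, Complex.div_ofReal_im, Complex.re_sum, Complex.im_sum]

theorem t_AS : S_COREP → S_WIN → S_AS := by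
  classical
  intro hC hW Ω _ μ _ e he P hP hdd T w hT hw
  obtain ⟨m, hmm, hm1, hdd0, hm2, hcore⟩ := hC Ω μ e he P
  set F : ℕ → Ω → ℝ := fun p ω => if p.Prime ∧ p ∈ P then m p ω ^ 2 / p else 0 with hF
  have hFmeas : ∀ p, Measurable (F p) := by
    intro p
    by_cases h : p.Prime ∧ p ∈ P
    · simp only [hF, if_pos h]
      exact ((hmm p).pow_const 2).div_const _
    · simp only [hF, if_neg h]
      exact measurable_const
  have hF0 : ∀ p ω, 0 ≤ F p ω := by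
    intro p ω
    simp only [hF]
    split_ifs
    · positivity
    · exact le_rfl
  have hF1 : ∀ p ω, F p ω ≤ 1 := by
    intro p ω
    simp only [hF]
    split_ifs with h
    · have hp : (1 : ℝ) ≤ p := by exact_mod_cast h.1.one_lt.le
      have h1 : m p ω ^ 2 ≤ 1 := by
        rw [← sq_abs]
        exact pow_le_one₀ (abs_nonneg _) (hm1 p ω)
      rw [div_le_one (by linarith)]
      linarith
    · norm_num
  have hFi : ∀ p, Integrable (F p) μ := fun p =>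
    Integrable.of_bound (hFmeas p).aestronglyMeasurable 1 (Eventually.of_forall fun ω => by
      rw [Real.norm_of_nonneg (hF0 p ω)]; exact hF1 p ω)
  have hFs : Summable fun p => ∫ ω, F p ω ∂μ := by
    have h1 : Summable (Set.indicator {p : ℕ | p.Prime ∧ p ∈ P} fun p => dd μ e (pr P p) p / (p : ℝ)) := by
      rw [← summable_subtype_iff_indicator]
      exact hdd
    refine Summable.of_nonneg_of_le (fun p => integral_nonneg (hF0 p)) (fun p => ?_) (h1.mul_left 2)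
    by_cases h : p.Prime ∧ p ∈ P
    · rw [Set.indicator_of_mem (show p ∈ {p : ℕ | p.Prime ∧ p ∈ P} from h)]
      have h2 : ∫ ω, F p ω ∂μ = (∫ ω, m p ω ^ 2 ∂μ) / p := by
        rw [← integral_div]
        refine integral_congr_ae (Eventually.of_forall fun ω => ?_)
        simp only [hF, if_pos h]
      rw [h2, ← mul_div_assoc]
      have hp : (0 : ℝ) < p := by exact_mod_cast h.1.pos
      exact div_le_div_of_nonneg_right (hm2 p h.1 h.2) hp.le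
    · rw [Set.indicator_of_notMem (show p ∉ {p : ℕ | p.Prime ∧ p ∈ P} from h)]
      have h2 : ∫ ω, F p ω ∂μ = 0 := by
        simp only [hF, if_neg h, integral_zero]
      rw [h2, mul_zero]
  have hae := ae_summable μ F hFmeas hF0 hFi hFs
  have hall : ∀ᵐ ω ∂μ, ∀ r s : ℕ, ∀ᶠ i : ℕ in atTop,
      ‖∑ n ∈ Icc 1 ⌊(1 + 1 / ((s : ℝ) + 1)) ^ i⌋₊,
        w n * ((∏ h ∈ T, cmf P (fun p => e p ω) (n + h) : ℝ) : ℂ)‖ ≤
        (2 + 3 * T.card) * (1 / ((r : ℝ) + 1)) * (⌊(1 + 1 / ((s : ℝ) + 1)) ^ i⌋₊ : ℝ) := by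
    rw [ae_all_iff]
    intro r
    rw [ae_all_iff]
    intro s
    have hs : 0 < 1 / ((s : ℝ) + 1) := by positivity
    exact geom μ e P m hcore hW hP F hae (fun p hp hpP ω => by simp only [hF, if_pos (And.intro hp hpP)])
      T w hT hw (1 + 1 / ((s : ℝ) + 1)) (1 / ((r : ℝ) + 1)) (by linarith) (by positivity)
  filter_upwards [hall] with ω hω
  exact interp _ (fun n => term_norm e he P T w hw ω n) _ hω

end Pool.Agent.Q182.EN
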